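import Pool.Agent.W488.IW.Stm

/-! Project IW: superposition formula for the homogeneous function. -/

set_option autoImplicit false

namespace Pool.Agent.W239.IW.Wk

open Pool.Agent.W488.IW
open MeasureTheory Set Filter Topology

/-- integrals of powers against a function vanishing outside `(0,t]` -/
theorem base (t : ℝ) (ht : 0 ≤ t) (f g : ℝ → ℝ) (hf : ∀ s, 0 < s → s ≤ t → f s = g s)
    (hf' : ∀ s, t < s → f s = 0) (hg : IntervalIntegrable g volume 0 t) :
    IntegrableOn f (Ioi 0) ∧ ∫ s in Ioi (0 : ℝ), f s = ∫ s in (0 : ℝ)..t, g s := by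
  have h1 : IntegrableOn g (Ioc 0 t) := (intervalIntegrable_iff_integrableOn_Ioc_of_le ht).1 hg
  have h2 : IntegrableOn f (Ioc 0 t) :=
    h1.congr_fun (fun s hs => (hf s hs.1 hs.2).symm) measurableSet_Ioc
  have h3 : ∀ s ∈ Ioi (0 : ℝ) \ Ioc 0 t, f s = 0 := by
    intro s hs
    apply hf'
    by_contra hc
    exact hs.2 ⟨hs.1, not_lt.1 hc⟩
  refine ⟨h2.of_forall_sdiff_eq_zero measurableSet_Ioi h3, ?_⟩
  rw [setIntegral_eq_of_subset_of_forall_sdiff_eq_zero measurableSet_Ioi
    Ioc_subset_Ioi_self h3, intervalIntegral.integral_of_le ht]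
  exact setIntegral_congr_fun measurableSet_Ioc (fun s hs => hf s hs.1 hs.2)

theorem lin (a t : ℝ) (ha : -1 < a) (ht : 0 ≤ t) :
    IntegrableOn (fun s => s ^ a * max (t - s) 0) (Ioi 0) ∧
    ∫ s in Ioi (0 : ℝ), s ^ a * max (t - s) 0 = t ^ (a + 2) / ((a + 1) * (a + 2)) := by
  have i0 : IntervalIntegrable (fun s : ℝ => s ^ a) volume 0 t :=
    intervalIntegral.intervalIntegrable_rpow' ha
  have i1 : IntervalIntegrable (fun s : ℝ => s ^ (a + 1)) volume 0 t :=
    intervalIntegral.intervalIntegrable_rpow' (by linarith)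
  have h := base t ht (fun s => s ^ a * max (t - s) 0) (fun s => t * s ^ a - s ^ (a + 1))
    (by
      intro s hs hst
      rw [max_eq_left (by linarith), Real.rpow_add_one hs.ne']
      ring)
    (by
      intro s hs
      rw [max_eq_right (by linarith), mul_zero])
    ((i0.const_mul t).sub i1)
  refine ⟨h.1, ?_⟩
  rw [h.2, intervalIntegral.integral_sub (i0.const_mul t) i1,
    intervalIntegral.integral_const_mul, integral_rpow (Or.inl ha),
    integral_rpow (Or.inl (by linarith)), Real.zero_rpow (by linarith),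
    Real.zero_rpow (by linarith)]
  have h2 : t ^ (a + 1 + 1) = t * t ^ (a + 1) := by
    rcases ht.eq_or_lt with h0 | h0
    · rw [← h0, Real.zero_rpow (by linarith), zero_mul]
    · rw [Real.rpow_add_one h0.ne']; ring
  rw [show a + 2 = a + 1 + 1 by ring, h2]
  have h3 : a + 1 ≠ 0 := by linarith
  have h4 : a + 1 + 1 ≠ 0 := by linarith
  field_simp
  ring

theorem quad (a t : ℝ) (ha : -1 < a) (ht : 0 ≤ t) :
    IntegrableOn (fun s => s ^ a * max (t - s) 0 ^ 2) (Ioi 0) ∧
    ∫ s in Ioi (0 : ℝ), s ^ a * max (t - s) 0 ^ 2 =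
      2 * t ^ (a + 3) / ((a + 1) * (a + 2) * (a + 3)) := by
  have i0 : IntervalIntegrable (fun s : ℝ => s ^ a) volume 0 t :=
    intervalIntegral.intervalIntegrable_rpow' ha
  have i1 : IntervalIntegrable (fun s : ℝ => s ^ (a + 1)) volume 0 t :=
    intervalIntegral.intervalIntegrable_rpow' (by linarith)
  have i2 : IntervalIntegrable (fun s : ℝ => s ^ (a + 1 + 1)) volume 0 t :=
    intervalIntegral.intervalIntegrable_rpow' (by linarith)
  have h := base t ht (fun s => s ^ a * max (t - s) 0 ^ 2)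
    (fun s => t ^ 2 * s ^ a - 2 * t * s ^ (a + 1) + s ^ (a + 1 + 1))
    (by
      intro s hs hst
      have e1 : s ^ (a + 1 + 1) = s ^ (a + 1) * s := Real.rpow_add_one hs.ne' _
      have e2 : s ^ (a + 1) = s ^ a * s := Real.rpow_add_one hs.ne' _
      rw [max_eq_left (by linarith)]
      rw [e1, e2]
      ring)
    (by
      intro s hs
      rw [max_eq_right (by linarith)]
      ring)
    (((i0.const_mul (t ^ 2)).sub (i1.const_mul (2 * t))).add i2)
  refine ⟨h.1, ?_⟩
  rw [h.2, intervalIntegral.integral_add ((i0.const_mul (t ^ 2)).sub (i1.const_mul (2 * t))) i2,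
    intervalIntegral.integral_sub (i0.const_mul (t ^ 2)) (i1.const_mul (2 * t)),
    intervalIntegral.integral_const_mul, intervalIntegral.integral_const_mul,
    integral_rpow (Or.inl ha),
    integral_rpow (Or.inl (by linarith)), integral_rpow (Or.inl (by linarith)),
    Real.zero_rpow (by linarith), Real.zero_rpow (by linarith), Real.zero_rpow (by linarith)]
  have h2 : t ^ (a + 1 + 1) = t * t ^ (a + 1) := by
    rcases ht.eq_or_lt with h0 | h0
    · rw [← h0, Real.zero_rpow (by linarith), zero_mul]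
    · rw [Real.rpow_add_one h0.ne']; ring
  have h2' : t ^ (a + 1 + 1 + 1) = t * (t * t ^ (a + 1)) := by
    rcases ht.eq_or_lt with h0 | h0
    · rw [← h0, Real.zero_rpow (by linarith), zero_mul]
    · rw [Real.rpow_add_one h0.ne', h2]; ring
  rw [show a + 2 = a + 1 + 1 by ring, show a + 3 = a + 1 + 1 + 1 by ring, h2', h2]
  have h3 : a + 1 ≠ 0 := by linarith
  have h4 : a + 1 + 1 ≠ 0 := by linarith
  have h5 : a + 1 + 1 + 1 ≠ 0 := by linarith
  field_simp
  ring

/-- IW-WK. -/
theorem main : S_WK := by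
  intro p x y hp hx hy
  set t := x + y with ht
  have ht0 : 0 ≤ t := by positivity
  set v := max (x - y) 0 with hv
  have hv0 : 0 ≤ v := le_max_right _ _
  obtain ⟨j1, k1⟩ := lin (p - 3) t (by linarith) ht0
  obtain ⟨j2, k2⟩ := quad (p - 3) t (by linarith) ht0
  obtain ⟨j3, k3⟩ := lin (p - 2) v (by linarith) hv0
  have heq : ∀ s ∈ Ioi (0 : ℝ), x * (s ^ (p - 3) * max (t - s) 0) -
      1 / 2 * (s ^ (p - 3) * max (t - s) 0 ^ 2) + s ^ (p - 2) * max (v - s) 0 =
      s ^ (p - 2) * Ks s x y := by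
    intro s hs
    have hs' : (0 : ℝ) < s := hs
    have h1 : s ^ (p - 2) = s ^ (p - 3) * s := by
      rw [← Real.rpow_add_one hs'.ne']; congr 1; ring
    have h2 : max (v - s) 0 = max (x - y - s) 0 := by
      rcases le_total (x - y) 0 with h | h
      · rw [hv, max_eq_right h, max_eq_right (by linarith), max_eq_right (by linarith)]
      · rw [hv, max_eq_left h]
    rw [Ks, h2, mul_add, ← ht, h1]
    field_simp
  have hint : IntegrableOn (fun s => x * (s ^ (p - 3) * max (t - s) 0) -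
      1 / 2 * (s ^ (p - 3) * max (t - s) 0 ^ 2) + s ^ (p - 2) * max (v - s) 0) (Ioi 0) :=
    ((j1.const_mul x).sub (j2.const_mul (1 / 2))).add j3
  refine ⟨hint.congr_fun heq measurableSet_Ioi, ?_⟩
  rw [← setIntegral_congr_fun measurableSet_Ioi heq]
  have e5 : ∫ s in Ioi (0 : ℝ), (x * (s ^ (p - 3) * max (t - s) 0) -
      1 / 2 * (s ^ (p - 3) * max (t - s) 0 ^ 2) + s ^ (p - 2) * max (v - s) 0) =
      x * (∫ s in Ioi (0 : ℝ), s ^ (p - 3) * max (t - s) 0) -
      1 / 2 * (∫ s in Ioi (0 : ℝ), s ^ (p - 3) * max (t - s) 0 ^ 2) +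
      ∫ s in Ioi (0 : ℝ), s ^ (p - 2) * max (v - s) 0 := by
    have f1 : IntegrableOn (fun s => x * (s ^ (p - 3) * max (t - s) 0)) (Ioi 0) := j1.const_mul x
    have f2 : IntegrableOn (fun s => 1 / 2 * (s ^ (p - 3) * max (t - s) 0 ^ 2)) (Ioi 0) :=
      j2.const_mul (1 / 2)
    have f3 : IntegrableOn (fun s => x * (s ^ (p - 3) * max (t - s) 0) -
      1 / 2 * (s ^ (p - 3) * max (t - s) 0 ^ 2)) (Ioi 0) := f1.sub f2
    rw [integral_add f3 j3, integral_sub f1 f2, integral_const_mul, integral_const_mul]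
  rw [e5, k1, k2, k3, Wp, ← ht, ← hv]
  have h2 : t ^ p = t * t ^ (p - 1) := by
    rcases ht0.eq_or_lt with h0 | h0
    · rw [← h0, Real.zero_rpow (by linarith), zero_mul]
    · rw [← Real.rpow_one_add' ht0 (by linarith)]; congr 1; ring
  rw [show p - 3 + 2 = p - 1 by ring, show p - 3 + 3 = p by ring, show p - 3 + 1 = p - 2 by ring,
    show p - 2 + 2 = p by ring, show p - 2 + 1 = p - 1 by ring, h2]
  have e1 : p - 2 ≠ 0 := by linarith
  have e2 : p - 1 ≠ 0 := by linarith
  have e3 : p ≠ 0 := by linarith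
  field_simp
  rw [ht]
  ring

end Pool.Agent.W239.IW.Wk
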